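import Pool.Agent.V1134.Frob

namespace Pool.Agent.Results.MP_9320d9_al.PrimePowerOrders

/-- Condition (*): for every divisor `d > 1` of the order of `G` and every subgroup `H` of order
coprime to `d`, the order of `H` divides the number of elements of order `d`. -/
def Star (G : Type*) [Group G] : Prop :=
  ∀ d : ℕ, 1 < d → d ∣ Nat.card G → ∀ H : Subgroup G, Nat.gcd (Nat.card H) d = 1 →
    Nat.card H ∣ Nat.card {g : G // orderOf g = d}

theorem card_dvd {G : Type*} [Group G] [Finite G] (h : Star G) :
    Nat.card G ∣ Nat.card {g : G // ∃ (p k : ℕ), p.Prime ∧ orderOf g = p ^ k} := by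
  classical
  have := Fintype.ofFinite G
  have hn0 : Nat.card G ≠ 0 := Nat.card_pos.ne'
  set A : Finset G := Finset.univ.filter (fun g => ∃ (p k : ℕ), p.Prime ∧ orderOf g = p ^ k)
    with hA
  have hS : Nat.card {g : G // ∃ (p k : ℕ), p.Prime ∧ orderOf g = p ^ k} = A.card := by
    rw [Nat.card_eq_fintype_card, Fintype.card_subtype]
  rw [hS]
  rw [← Nat.factorization_prime_le_iff_dvd hn0 (by
    rw [Finset.card_ne_zero]
    exact ⟨1, by simp only [hA, Finset.mem_filter, Finset.mem_univ, true_and, orderOf_one]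
                 exact ⟨2, 0, Nat.prime_two, by simp⟩⟩)]
  intro q hq
  rw [← hq.pow_dvd_iff_le_factorization (by
    rw [Finset.card_ne_zero]
    exact ⟨1, by simp only [hA, Finset.mem_filter, Finset.mem_univ, true_and, orderOf_one]
                 exact ⟨2, 0, Nat.prime_two, by simp⟩⟩)]
  have : Fact q.Prime := ⟨hq⟩
  -- split in q-elements and others
  set B : Finset G := Finset.univ.filter (fun g => ∃ k : ℕ, g ^ q ^ k = 1) with hB
  have hB' : ∀ g, g ∈ B ↔ ∃ k : ℕ, orderOf g = q ^ k := by
    intro g
    rw [hB, Finset.mem_filter]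
    constructor
    · rintro ⟨-, k, hk⟩
      obtain ⟨j, -, hj⟩ := (Nat.dvd_prime_pow hq).1 (orderOf_dvd_of_pow_eq_one hk)
      exact ⟨j, hj⟩
    · rintro ⟨k, hk⟩
      exact ⟨Finset.mem_univ _, k, by rw [← hk]; exact pow_orderOf_eq_one g⟩
  have hBA : B ⊆ A := by
    intro g hg
    obtain ⟨k, hk⟩ := (hB' g).1 hg
    rw [hA, Finset.mem_filter]
    exact ⟨Finset.mem_univ _, q, k, hq, hk⟩
  have hcard : A.card = B.card + (A \ B).card := by
    rw [add_comm]
    exact (Finset.card_sdiff_add_card_eq_card hBA).symm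
  rw [hcard]
  apply dvd_add
  · have h1 := Pool.Agent.V1134.Frob.frob q (Nat.card G) G rfl
    rwa [Nat.card_eq_fintype_card (α := {u : G // ∃ k : ℕ, u ^ q ^ k = 1}),
      Fintype.card_subtype] at h1
  · have hmaps : ∀ g ∈ A \ B, orderOf g ∈ (Nat.card G).divisors := by
      intro g _
      rw [Nat.mem_divisors]
      exact ⟨orderOf_dvd_natCard g, hn0⟩
    rw [Finset.card_eq_sum_card_fiberwise hmaps]
    apply Finset.dvd_sum
    intro d hd
    by_cases hemp : (Finset.filter (fun g => orderOf g = d) (A \ B)) = ∅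
    · rw [hemp]
      simp
    obtain ⟨g, hg⟩ := Finset.nonempty_iff_ne_empty.2 hemp
    rw [Finset.mem_filter, Finset.mem_sdiff] at hg
    obtain ⟨⟨hgA, hgB⟩, hgd⟩ := hg
    rw [hA, Finset.mem_filter] at hgA
    obtain ⟨-, p, k, hp, hpk⟩ := hgA
    have hpq : p ≠ q := by
      rintro rfl
      exact hgB ((hB' g).2 ⟨k, hpk⟩)
    have hd1 : d ≠ 1 := by
      intro hd1
      apply hgB
      rw [hB']
      exact ⟨0, by rw [hgd, hd1, pow_zero]⟩
    have hd' : d = p ^ k := by rw [← hgd, hpk]
    -- the fibre is the set of all elements of order d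
    have hfib : Finset.filter (fun g => orderOf g = d) (A \ B) =
        Finset.univ.filter (fun g : G => orderOf g = d) := by
      ext x
      simp only [Finset.mem_filter, Finset.mem_sdiff, Finset.mem_univ, true_and]
      constructor
      · rintro ⟨-, h⟩
        exact h
      · intro hx
        refine ⟨⟨?_, ?_⟩, hx⟩
        · rw [hA, Finset.mem_filter]
          exact ⟨Finset.mem_univ _, p, k, hp, by rw [hx, hd']⟩
        · intro hxB
          obtain ⟨j, hj⟩ := (hB' x).1 hxB
          apply hgB
          rw [hB']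
          exact ⟨j, by rw [hgd, ← hx, hj]⟩
    rw [hfib]
    obtain ⟨Q⟩ := (inferInstance : Nonempty (Sylow q G))
    have hQ : Nat.card Q = q ^ (Nat.card G).factorization q := Q.card_eq_multiplicity
    have h1 := h d (by
      have : d ≠ 0 := by
        rintro rfl
        exact (orderOf_pos g).ne' hgd
      omega) (Nat.dvd_of_mem_divisors hd) (Q : Subgroup G) (by
        show Nat.gcd (Nat.card Q) d = 1
        rw [hQ, hd']
        exact Nat.Coprime.pow _ _ ((Nat.coprime_primes hq hp).2 hpq.symm))
    have h2 : Nat.card {g : G // orderOf g = d} =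
        (Finset.univ.filter (fun g : G => orderOf g = d)).card := by
      rw [Nat.card_eq_fintype_card, Fintype.card_subtype]
    rw [← h2]
    rw [← hQ]
    exact h1

/-- If a finite group satisfies condition (*), then every element has prime-power order. -/
theorem result (G : Type*) [Group G] [Finite G] (h : Star G) :
    ∀ g : G, ∃ (p k : ℕ), p.Prime ∧ orderOf g = p ^ k := by
  classical
  have := Fintype.ofFinite G
  have h1 := card_dvd h
  have h2 : 0 < Nat.card {g : G // ∃ (p k : ℕ), p.Prime ∧ orderOf g = p ^ k} := by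
    have : Nonempty {g : G // ∃ (p k : ℕ), p.Prime ∧ orderOf g = p ^ k} :=
      ⟨⟨1, 2, 0, Nat.prime_two, by simp⟩⟩
    exact Nat.card_pos
  have h3 := Nat.le_of_dvd h2 h1
  intro g
  by_contra hg
  have h4 : Nat.card {g : G // ∃ (p k : ℕ), p.Prime ∧ orderOf g = p ^ k} < Nat.card G := by
    rw [Nat.card_eq_fintype_card, Nat.card_eq_fintype_card]
    exact Fintype.card_subtype_lt hg
  omega

end Pool.Agent.Results.MP_9320d9_al.PrimePowerOrders
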